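import Mathlib

/-! Definitions for orthogonal expansions of continuous functions on the unit interval. -/

namespace Pool.Agent.Lib.MP_ae49d3_an.H16

open Filter Topology MeasureTheory

/-- Real continuous functions on the unit interval, with the sup norm. -/
abbrev CI : Type := C(unitInterval, ℝ)

/-- The inner product of `L²[0,1]`. -/
noncomputable def ip (f g : CI) : ℝ := ∫ t, f t * g t

/-- The coefficient `a_n` of `f` in the system `φ`. -/
noncomputable def coef (φ : ℕ → CI) (f : CI) (n : ℕ) : ℝ := ip f (φ n) / ip (φ n) (φ n)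

/-- The sum of the first `N` terms of the expansion of `f`. -/
noncomputable def psum (φ : ℕ → CI) (f : CI) (N : ℕ) : CI :=
  ∑ n ∈ Finset.range N, coef φ f n • φ n

/-- The expansion of `f` is uniformly summable to `f` by the matrix `c`: every row series
converges uniformly, and the row sums tend to `f` uniformly. -/
def Sums (φ : ℕ → CI) (c : ℕ → ℕ → ℝ) (f : CI) : Prop :=
  ∃ σ : ℕ → CI,
    (∀ m, Tendsto (fun L => ∑ N ∈ Finset.range L, c m N • psum φ f (N + 1)) atTop (𝓝 (σ m))) ∧
      Tendsto σ atTop (𝓝 f)

/-- The function `cos (π m t)`. -/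
noncomputable def cs (m : ℕ) : CI :=
  ⟨fun t => Real.cos (Real.pi * m * (t : ℝ)), by fun_prop⟩

end Pool.Agent.Lib.MP_ae49d3_an.H16
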