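import Pool.Agent.Lib.MP_ae49d3_an.H16.Ip

/-! Fejer kernel, de la Vallee Poussin means for the cosine system. -/

namespace Pool.Agent.Lib.MP_ae49d3_an.H16

open Filter Topology MeasureTheory Finset

/-- Weights 1, 2, 2, ... -/
noncomputable def wt (m : ℕ) : ℝ := if m = 0 then 1 else 2

/-- `N` times the Fejer kernel. -/
noncomputable def GK (N : ℕ) (x : ℝ) : ℝ := ∑ m ∈ range N, wt m * ((N : ℝ) - m) * Real.cos (m * x)

theorem GK_succ (N : ℕ) (x : ℝ) :
    GK (N + 1) x = GK N x + (1 + 2 * ∑ j ∈ range N, Real.cos (((j + 1 : ℕ) : ℝ) * x)) := by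
  have h1 : GK (N + 1) x = ∑ m ∈ range (N + 1), wt m * ((N : ℝ) - m) * Real.cos (m * x) +
      ∑ m ∈ range (N + 1), wt m * Real.cos (m * x) := by
    unfold GK
    rw [← sum_add_distrib]
    refine sum_congr rfl fun m _ => ?_
    push_cast; ring
  rw [h1, sum_range_succ, sum_range_succ' (fun m => wt m * Real.cos (m * x))]
  unfold GK
  simp only [wt, sub_self, mul_zero, zero_mul, add_zero, Nat.succ_ne_zero, if_false, if_true,
    Nat.cast_zero, Real.cos_zero, mul_one, ← mul_sum]
  ring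

theorem GK_eq (N : ℕ) (x : ℝ) :
    GK N x = (∑ j ∈ range N, Real.cos (j * x)) ^ 2 + (∑ j ∈ range N, Real.sin (j * x)) ^ 2 := by
  induction N with
  | zero => simp [GK]
  | succ N ih =>
    rw [GK_succ, ih, sum_range_succ, sum_range_succ]
    have h : ∑ j ∈ range N, Real.cos (((j + 1 : ℕ) : ℝ) * x) =
        Real.cos (N * x) * ∑ j ∈ range N, Real.cos (j * x) +
          Real.sin (N * x) * ∑ j ∈ range N, Real.sin (j * x) := by
      rw [mul_sum, mul_sum, ← sum_add_distrib, ← sum_range_reflect]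
      refine sum_congr rfl fun j hj => ?_
      have hj' : j < N := mem_range.1 hj
      rw [← Real.cos_sub]
      congr 1
      have : N - 1 - j + 1 = N - j := by omega
      rw [this, Nat.cast_sub hj'.le]; ring
    rw [h]
    nlinarith [Real.sin_sq_add_cos_sq (N * x)]

theorem GK_nonneg (N : ℕ) (x : ℝ) : 0 ≤ GK N x := by
  rw [GK_eq]; positivity

theorem nf_sq' (m : ℕ) : nf m * nf m = wt m := nf_sq m

/-- `N` times the Fejer mean. -/
noncomputable def FN (N : ℕ) (f : CI) : CI := ∑ m ∈ range N, (((N : ℝ) - m) * ip f (u m)) • u m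

theorem ip_one_u (m : ℕ) : ip 1 (u m) = if m = 0 then 1 else 0 := by
  have : (1 : CI) = u 0 := by
    ext t; simp [u, nf, cs]
  rw [this, ip_u]; simp [eq_comm]

theorem norm_FN_le (N : ℕ) (f : CI) : ‖FN N f‖ ≤ N * ‖f‖ := by
  refine (ContinuousMap.norm_le _ (by positivity)).2 fun x => ?_
  set K : CI := ∑ m ∈ range N, (((N : ℝ) - m) * u m x) • u m with hK
  have h1 : FN N f x = ip f K := by
    rw [hK, ip_sum_right]
    unfold FN
    rw [ContinuousMap.sum_apply]
    refine sum_congr rfl fun m _ => ?_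
    rw [ip_smul_right]; simp only [ContinuousMap.smul_apply, smul_eq_mul]; ring
  have h2 : ∀ t, 0 ≤ K t := by
    intro t
    have : K t = (GK N (Real.pi * x + Real.pi * t) + GK N (Real.pi * x - Real.pi * t)) / 2 := by
      rw [hK, ContinuousMap.sum_apply]
      unfold GK
      rw [← sum_add_distrib, sum_div]
      refine sum_congr rfl fun m _ => ?_
      simp only [u, cs, ContinuousMap.smul_apply, smul_eq_mul, ContinuousMap.coe_mk]
      rw [← nf_sq' m, mul_add (m : ℝ), mul_sub (m : ℝ), Real.cos_add, Real.cos_sub,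
        show (m : ℝ) * (Real.pi * x) = Real.pi * m * x by ring,
        show (m : ℝ) * (Real.pi * t) = Real.pi * m * t by ring]
      ring
    rw [this]
    have := GK_nonneg N (Real.pi * x + Real.pi * t)
    have := GK_nonneg N (Real.pi * x - Real.pi * t)
    positivity
  have h3 : L1 K = ip 1 K := by
    unfold L1 ip
    refine integral_congr_ae (Eventually.of_forall fun t => ?_)
    simp [abs_of_nonneg (h2 t)]
  have h4 : ip 1 K ≤ N := by
    rw [hK, ip_sum_right]
    rcases Nat.eq_zero_or_pos N with h0 | h0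
    · subst h0; simp
    · rw [sum_eq_single 0]
      · rw [ip_smul_right, ip_one_u]; simp [u, nf, cs]
      · intro m _ hm; rw [ip_smul_right, ip_one_u, if_neg hm, mul_zero]
      · intro h; exact absurd (mem_range.2 h0) h
  rw [Real.norm_eq_abs, h1]
  calc |ip f K| ≤ ‖f‖ * L1 K := abs_ip_le f K
    _ ≤ ‖f‖ * N := by rw [h3]; exact mul_le_mul_of_nonneg_left h4 (norm_nonneg _)
    _ = N * ‖f‖ := mul_comm _ _

/-- The de la Vallee Poussin mean. -/
noncomputable def VP (A : ℕ) (f : CI) : CI :=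
  ∑ m ∈ range (A + 1), ip f (u m) • u m +
    ∑ m ∈ Ico (A + 1) (2 * A), ((2 - (m : ℝ) / A) * ip f (u m)) • u m

theorem VP_eq {A : ℕ} (hA : 0 < A) (f : CI) :
    VP A f = (A : ℝ)⁻¹ • (FN (2 * A) f - FN A f) := by
  have hA' : (A : ℝ) ≠ 0 := by exact_mod_cast hA.ne'
  have h1 : FN A f = ∑ m ∈ range (A + 1), (((A : ℝ) - m) * ip f (u m)) • u m := by
    rw [sum_range_succ]; simp [FN]
  have h2 : FN (2 * A) f =
      ∑ m ∈ range (A + 1), ((((2 * A : ℕ) : ℝ) - m) * ip f (u m)) • u m +
        ∑ m ∈ Ico (A + 1) (2 * A), ((((2 * A : ℕ) : ℝ) - m) * ip f (u m)) • u m := by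
    unfold FN
    rw [sum_range_add_sum_Ico _ (by omega)]
  rw [h1, h2, add_sub_right_comm, ← sum_sub_distrib, smul_add, smul_sum, smul_sum]
  unfold VP
  congr 1
  · refine sum_congr rfl fun m _ => ?_
    rw [← sub_smul, smul_smul]
    congr 1
    push_cast; field_simp; ring
  · refine sum_congr rfl fun m _ => ?_
    rw [smul_smul]
    congr 1
    push_cast; field_simp

theorem norm_VP_le {A : ℕ} (hA : 0 < A) (f : CI) : ‖VP A f‖ ≤ 3 * ‖f‖ := by
  have hA' : (0 : ℝ) < A := by exact_mod_cast hA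
  rw [VP_eq hA, norm_smul, Real.norm_eq_abs, abs_of_pos (inv_pos.2 hA')]
  have h1 := norm_FN_le (2 * A) f
  have h2 := norm_FN_le A f
  have h3 := norm_sub_le (FN (2 * A) f) (FN A f)
  push_cast at h1
  rw [inv_mul_le_iff₀ hA']
  nlinarith

theorem VP_sub (A : ℕ) (f g : CI) : VP A (f - g) = VP A f - VP A g := by
  unfold VP
  simp only [ip_sub_left, mul_sub, sub_smul, sum_sub_distrib]
  abel

theorem VP_mem {A : ℕ} (hA : 0 < A) (f : CI) : VP A f ∈ Sp {m | m < 2 * A} := by
  unfold VP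
  refine Submodule.add_mem _ (Submodule.sum_mem _ fun m hm => ?_)
    (Submodule.sum_mem _ fun m hm => ?_)
  · refine Submodule.smul_mem _ _ (u_mem_Sp ?_)
    have := mem_range.1 hm
    simp only [Set.mem_setOf_eq]; omega
  · exact Submodule.smul_mem _ _ (u_mem_Sp (mem_Ico.1 hm).2)

theorem VP_fix {A : ℕ} {p : CI} (hp : p ∈ Sp ((range (A + 1) : Finset ℕ) : Set ℕ)) :
    VP A p = p := by
  unfold VP
  rw [expand hp, sum_eq_zero, add_zero]
  intro m hm
  rw [ip_u_of_Sp hp, mul_zero, zero_smul]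
  have := (mem_Ico.1 hm).1
  simp only [coe_range, Set.mem_Iio]; omega

theorem cs_mul (m n : ℕ) (h : n ≤ m) :
    cs m * cs n = (1 / 2 : ℝ) • (cs (m + n) + cs (m - n)) := by
  ext t
  simp only [cs, ContinuousMap.mul_apply, ContinuousMap.coe_mk, ContinuousMap.smul_apply,
    ContinuousMap.add_apply, smul_eq_mul]
  rw [Nat.cast_sub h, Nat.cast_add,
    show Real.pi * (m + n) * (t : ℝ) = Real.pi * m * t + Real.pi * n * t by ring,
    show Real.pi * (m - n) * (t : ℝ) = Real.pi * m * t - Real.pi * n * t by ring,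
    Real.cos_add, Real.cos_sub]
  ring

theorem cs_mul_mem (m n : ℕ) : cs m * cs n ∈ Submodule.span ℝ (Set.range cs) := by
  have key : ∀ m n : ℕ, n ≤ m → cs m * cs n ∈ Submodule.span ℝ (Set.range cs) := by
    intro m n h
    rw [cs_mul m n h]
    exact Submodule.smul_mem _ _ (Submodule.add_mem _ (Submodule.subset_span ⟨_, rfl⟩)
      (Submodule.subset_span ⟨_, rfl⟩))
  rcases le_total n m with h | h
  · exact key m n h
  · rw [mul_comm]; exact key n m h

theorem span_mul_mem {x y : CI} (hx : x ∈ Submodule.span ℝ (Set.range cs))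
    (hy : y ∈ Submodule.span ℝ (Set.range cs)) : x * y ∈ Submodule.span ℝ (Set.range cs) := by
  induction hx using Submodule.span_induction with
  | mem x hx =>
    obtain ⟨m, rfl⟩ := hx
    induction hy using Submodule.span_induction with
    | mem y hy => obtain ⟨n, rfl⟩ := hy; exact cs_mul_mem m n
    | zero => simp
    | add a b _ _ ha hb => rw [mul_add]; exact Submodule.add_mem _ ha hb
    | smul r a _ ha => rw [mul_smul_comm]; exact Submodule.smul_mem _ _ ha
  | zero => simp
  | add a b _ _ ha hb => rw [add_mul]; exact Submodule.add_mem _ ha hb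
  | smul r a _ ha => rw [smul_mul_assoc]; exact Submodule.smul_mem _ _ ha

theorem dense_cs : Dense ((Submodule.span ℝ (Set.range cs) : Submodule ℝ CI) : Set CI) := by
  have h1 : (1 : CI) ∈ Submodule.span ℝ (Set.range cs) := by
    have : (1 : CI) = cs 0 := by ext t; simp [cs]
    rw [this]; exact Submodule.subset_span ⟨0, rfl⟩
  let A : Subalgebra ℝ CI :=
    (Submodule.span ℝ (Set.range cs)).toSubalgebra h1 fun x y hx hy => span_mul_mem hx hy
  have hsep : A.SeparatesPoints := by
    intro x y hxy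
    refine ⟨cs 1, ⟨cs 1, Submodule.subset_span ⟨1, rfl⟩, rfl⟩, ?_⟩
    intro h
    simp only [cs, ContinuousMap.coe_mk, Nat.cast_one, mul_one] at h
    have hx : Real.pi * (x : ℝ) ∈ Set.Icc 0 Real.pi :=
      ⟨mul_nonneg Real.pi_pos.le x.2.1, by nlinarith [x.2.2, Real.pi_pos]⟩
    have hy : Real.pi * (y : ℝ) ∈ Set.Icc 0 Real.pi :=
      ⟨mul_nonneg Real.pi_pos.le y.2.1, by nlinarith [y.2.2, Real.pi_pos]⟩
    have := Real.injOn_cos hx hy h
    exact hxy (Subtype.ext (mul_left_cancel₀ Real.pi_ne_zero this))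
  have := ContinuousMap.subalgebra_topologicalClosure_eq_top_of_separatesPoints A hsep
  intro f
  have hf : f ∈ A.topologicalClosure := by rw [this]; trivial
  exact hf

theorem mem_Sp_range {p : CI} (hp : p ∈ Submodule.span ℝ (Set.range cs)) :
    ∃ B : ℕ, p ∈ Sp ((range B : Finset ℕ) : Set ℕ) := by
  induction hp using Submodule.span_induction with
  | mem x hx =>
    obtain ⟨m, rfl⟩ := hx
    exact ⟨m + 1, cs_mem_Sp (by simp)⟩
  | zero => exact ⟨0, Submodule.zero_mem _⟩
  | add a b _ _ ha hb =>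
    obtain ⟨B, hB⟩ := ha
    obtain ⟨C, hC⟩ := hb
    refine ⟨B + C, Submodule.add_mem _ (Sp_mono ?_ hB) (Sp_mono ?_ hC)⟩
    · intro m hm; simp only [coe_range, Set.mem_Iio] at hm ⊢; omega
    · intro m hm; simp only [coe_range, Set.mem_Iio] at hm ⊢; omega
  | smul r a _ ha =>
    obtain ⟨B, hB⟩ := ha
    exact ⟨B, Submodule.smul_mem _ _ hB⟩

theorem tendsto_VP (f : CI) : Tendsto (fun A => VP A f) atTop (𝓝 f) := by
  rw [Metric.tendsto_atTop]
  intro ε hε
  obtain ⟨p, hp, hd⟩ := dense_cs.exists_dist_lt f (show 0 < ε / 4 by positivity)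
  obtain ⟨B, hB⟩ := mem_Sp_range hp
  refine ⟨B + 1, fun A hA => ?_⟩
  have hA0 : 0 < A := by omega
  have h1 : VP A p = p := by
    refine VP_fix (Sp_mono ?_ hB)
    intro m hm; simp only [coe_range, Set.mem_Iio] at hm ⊢; omega
  rw [dist_eq_norm] at hd ⊢
  have h2 : VP A f - f = VP A (f - p) - (f - p) := by rw [VP_sub, h1]; abel
  rw [h2]
  have h3 := norm_VP_le hA0 (f - p)
  have h4 := norm_sub_le (VP A (f - p)) (f - p)
  linarith

end Pool.Agent.Lib.MP_ae49d3_an.H16
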