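import Pool.Agent.Lib.MP_ae49d3_an.H16.Small

/-! An orthonormal system of cosine polynomials containing functions of very small `L¹` norm. -/

namespace Pool.Agent.Lib.MP_ae49d3_an.H16

open Filter Topology MeasureTheory Finset

/-- The data used by the mixing step. -/
structure Base (e : ℕ → CI) (G M : ℕ → ℕ) : Prop where
  on : ∀ m n, ip (e m) (e n) = if m = n then 1 else 0
  Ginj : Function.Injective G
  Minj : Function.Injective M
  GM : ∀ k l, G k ≠ M l
  app : ∀ (f : CI) (μ : CI →L[ℝ] ℝ),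
    (∀ m, (∀ k, m ≠ G k) → (∀ k, m ≠ M k) → ip f (e m) * μ (e m) = 0) →
    Tendsto (fun K => ∑ k ∈ range K,
      (ip f (e (G k)) * μ (e (G k)) + ip f (e (M k)) * μ (e (M k)))) atTop (𝓝 (μ f))
  lim : ∀ f, Tendsto (fun k => ip f (e (G k) - e (M k))) atTop (𝓝 0)
  l1 : ∀ K j, K < j → L1 (e (M j)) * ‖e (G K) - e (M K)‖ ≤ (1 / 2) ^ j
  l1' : ∀ j, L1 (e (M j)) ≤ (1 / 4) ^ j
  nG : ∀ k, ‖e (G k)‖ ≤ 2
  sp : ∀ m, e m ∈ Submodule.span ℝ (Set.range cs)

/-- Reflection along `w`, for `ip w w = 2`. -/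
noncomputable def rf (w f : CI) : CI := f - ip f w • w

theorem ip_rf {w : CI} (hw : ip w w = 2) (f g : CI) : ip (rf w f) (rf w g) = ip f g := by
  unfold rf
  simp only [ip_sub_left, ip_sub_right, ip_smul_left, ip_smul_right, hw, ip_comm w g]
  ring

theorem sum_rf {w : CI} (hw : ip w w = 2) {T : Finset ℕ} (hT : w ∈ Sp (T : Set ℕ)) (f : CI) :
    ∑ m ∈ T, ip f (rf w (u m)) • rf w (u m) = ∑ m ∈ T, ip f (u m) • u m := by
  have h1 : ∑ m ∈ T, ip w (u m) • u m = w := expand hT
  have h2 : ∑ m ∈ T, ip f (u m) * ip w (u m) = ip f w := by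
    conv_rhs => rw [← h1]
    rw [ip_sum_right]
    exact sum_congr rfl fun m _ => by rw [ip_smul_right, mul_comm]
  have h3 : ∑ m ∈ T, ip w (u m) * ip w (u m) = 2 := by
    rw [← hw, ip_self_of_Sp hT]
    exact sum_congr rfl fun m _ => (sq _).symm
  have h4 : ∀ m, ip f (rf w (u m)) • rf w (u m) =
      ip f (u m) • u m - ip f w • (ip w (u m) • u m) - (ip f (u m) * ip w (u m)) • w +
        (ip f w * (ip w (u m) * ip w (u m))) • w := by
    intro m
    unfold rf
    rw [ip_sub_right, ip_smul_right, ip_comm (u m) w]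
    module
  simp only [h4, sum_add_distrib, sum_sub_distrib, ← smul_sum, ← sum_smul, ← mul_sum, h1, h2, h3]
  module

/-- Next cut. -/
noncomputable def nA (B : ℕ) (ε : ℝ) : ℕ := (small_L1 B ε).choose

/-- Next function. -/
noncomputable def nh (B : ℕ) (ε : ℝ) : CI := (small_L1 B ε).choose_spec.choose

theorem nspec (B : ℕ) {ε : ℝ} (hε : 0 < ε) :
    B ≤ nA B ε ∧ nh B ε ∈ Sp ((Icc B (nA B ε) : Finset ℕ) : Set ℕ) ∧
      ip (nh B ε) (nh B ε) = 1 ∧ L1 (nh B ε) ≤ ε :=
  (small_L1 B ε).choose_spec.choose_spec hε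

/-- State of the recursion: the cut and a bound of the norms so far. -/
noncomputable def st : ℕ → ℕ × ℝ
  | 0 => (1, 1)
  | k + 1 => (nA (2 * (st k).1 + 2) ((1 / 4) ^ k / (st k).2),
      (st k).2 + ‖u (2 * (st k).1) - nh (2 * (st k).1 + 2) ((1 / 4) ^ k / (st k).2)‖)

/-- The cuts. -/
noncomputable def cA (k : ℕ) : ℕ := (st k).1

/-- The norm bounds. -/
noncomputable def cB (k : ℕ) : ℝ := (st k).2

/-- The thin functions. -/
noncomputable def hh (k : ℕ) : CI := nh (2 * cA k + 2) ((1 / 4) ^ k / cB k)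

theorem cB_succ (k : ℕ) : cB (k + 1) = cB k + ‖u (2 * cA k) - hh k‖ := rfl

theorem cB_mono : Monotone cB :=
  monotone_nat_of_le_succ fun k => by rw [cB_succ]; linarith [norm_nonneg (u (2 * cA k) - hh k)]

theorem one_le_cB (k : ℕ) : 1 ≤ cB k := cB_mono (Nat.zero_le k)

theorem hspec (k : ℕ) : 2 * cA k + 2 ≤ cA (k + 1) ∧
    hh k ∈ Sp ((Icc (2 * cA k + 2) (cA (k + 1)) : Finset ℕ) : Set ℕ) ∧
      ip (hh k) (hh k) = 1 ∧ L1 (hh k) ≤ (1 / 4) ^ k / cB k :=
  nspec _ (by have := one_le_cB k; positivity)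

theorem cA_lt (k : ℕ) : 2 * cA k + 2 ≤ cA (k + 1) := (hspec k).1

theorem cA_strictMono : StrictMono cA :=
  strictMono_nat_of_lt_succ fun k => by have := cA_lt k; omega

theorem cA_pos (k : ℕ) : 0 < cA k :=
  lt_of_lt_of_le (show 0 < cA 0 from Nat.one_pos) (cA_strictMono.monotone (Nat.zero_le k))

/-- The reflection vectors. -/
noncomputable def ww (k : ℕ) : CI := u (2 * cA k + 1) - hh k

theorem ip_hh_u (k : ℕ) {m : ℕ} (hm : m < 2 * cA k + 2) : ip (hh k) (u m) = 0 :=
  ip_u_of_Sp (hspec k).2.1 (by simp only [coe_Icc, Set.mem_Icc]; omega)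

theorem ip_ww (k : ℕ) : ip (ww k) (ww k) = 2 := by
  unfold ww
  have h := ip_hh_u k (show 2 * cA k + 1 < 2 * cA k + 2 by omega)
  simp only [ip_sub_left, ip_sub_right, ip_u, (hspec k).2.2.1, h, ip_comm (u _) (hh k), if_true]
  norm_num

theorem ww_mem (k : ℕ) : ww k ∈ Sp ((Icc (2 * cA k + 1) (cA (k + 1)) : Finset ℕ) : Set ℕ) := by
  have := cA_lt k
  refine Submodule.sub_mem _ (u_mem_Sp ?_) (Sp_mono ?_ (hspec k).2.1)
  · simp only [coe_Icc, Set.mem_Icc]; omega
  · intro m hm; simp only [coe_Icc, Set.mem_Icc] at hm ⊢; omega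

theorem ex_blk (m : ℕ) : ∃ k, m ≤ cA (k + 1) :=
  ⟨m, (Nat.le_succ m).trans (cA_strictMono.id_le (m + 1))⟩

/-- The block of `m`. -/
noncomputable def blk (m : ℕ) : ℕ := Nat.find (ex_blk m)

theorem blk_eq {m k : ℕ} (h1 : cA k < m) (h2 : m ≤ cA (k + 1)) : blk m = k := by
  unfold blk
  rw [Nat.find_eq_iff]
  refine ⟨h2, fun j hj h => ?_⟩
  have := cA_strictMono.monotone (show j + 1 ≤ k by omega)
  omega

/-- The new orthonormal system. -/
noncomputable def ee (m : ℕ) : CI := rf (ww (blk m)) (u m)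

theorem ee_of_le {m : ℕ} (h : m ≤ 2 * cA (blk m)) : ee m = u m := by
  unfold ee rf
  rw [ip_comm, ip_u_of_Sp (ww_mem _) (by simp only [coe_Icc, Set.mem_Icc]; omega), zero_smul,
    sub_zero]

theorem ee_mid {m k : ℕ} (h1 : cA k < m) (h2 : m ≤ 2 * cA k) : ee m = u m := by
  have := cA_lt k
  exact ee_of_le (by rw [blk_eq h1 (by omega)]; exact h2)

theorem ee_G (k : ℕ) : ee (2 * cA k) = u (2 * cA k) :=
  ee_mid (k := k) (by have := cA_pos k; omega) le_rfl

theorem ee_M (k : ℕ) : ee (2 * cA k + 1) = hh k := by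
  have := cA_lt k
  unfold ee
  rw [blk_eq (k := k) (by omega) (by omega)]
  unfold rf ww
  rw [ip_sub_right, ip_u, ip_comm, ip_hh_u k (by omega)]
  simp

theorem ee_mem (m : ℕ) : ee m ∈ Sp {n | blk n = blk m} := by
  unfold ee rf
  refine Submodule.sub_mem _ (u_mem_Sp rfl) (Submodule.smul_mem _ _ (Sp_mono ?_ (ww_mem _)))
  intro n hn
  simp only [coe_Icc, Set.mem_Icc] at hn
  exact blk_eq (by omega) hn.2

theorem ip_ee (m n : ℕ) : ip (ee m) (ee n) = if m = n then 1 else 0 := by
  by_cases h : blk m = blk n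
  · unfold ee; rw [h, ip_rf (ip_ww _), ip_u]
  · rw [if_neg (by rintro rfl; exact h rfl)]
    refine ip_of_Sp (ee_mem m) (ee_mem n) fun j hj hj' => h ?_
    exact (show blk j = blk m from hj').symm.trans hj

theorem sum_ee (f : CI) (K : ℕ) :
    ∑ m ∈ range (cA K + 1), ip f (ee m) • ee m = ∑ m ∈ range (cA K + 1), ip f (u m) • u m := by
  induction K with
  | zero =>
    refine sum_congr rfl fun m hm => ?_
    have h1 : m < 1 + 1 := mem_range.1 hm
    have h2 := cA_pos (blk m)
    rw [ee_of_le (by omega)]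
  | succ K ih =>
    have hle : cA K + 1 ≤ cA (K + 1) + 1 := by have := cA_lt K; omega
    rw [← sum_range_add_sum_Ico _ hle, ← sum_range_add_sum_Ico _ hle, ih]
    congr 1
    rw [← sum_rf (ip_ww K) (T := Ico (cA K + 1) (cA (K + 1) + 1)) (Sp_mono ?_ (ww_mem K)) f]
    · refine sum_congr rfl fun m hm => ?_
      have := mem_Ico.1 hm
      unfold ee
      rw [blk_eq (k := K) (by omega) (by omega)]
    · intro m hm
      simp only [coe_Icc, Set.mem_Icc, coe_Ico, Set.mem_Ico] at hm ⊢; omega

theorem two_cA_ne {k K m : ℕ} (h1 : cA K < m) (h2 : m ≤ cA (K + 1)) (hk : k ≠ K) :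
    m ≠ 2 * cA k ∧ m ≠ 2 * cA k + 1 := by
  have h3 := cA_lt k
  have h4 := cA_pos k
  have h5 := blk_eq h1 h2
  constructor
  · rintro rfl
    exact hk ((blk_eq (k := k) (by omega) (by omega)).symm.trans h5)
  · rintro rfl
    exact hk ((blk_eq (k := k) (by omega) (by omega)).symm.trans h5)

theorem base_ee : Base ee (fun k => 2 * cA k) (fun k => 2 * cA k + 1) where
  on := ip_ee
  Ginj := fun k l h => cA_strictMono.injective (by simp only at h; omega)
  Minj := fun k l h => cA_strictMono.injective (by simp only at h; omega)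
  GM := fun k l => by omega
  app := by
    intro f μ h
    have h1 : ∀ K, ∑ m ∈ range (cA K + 1), ip f (ee m) * μ (ee m) = ∑ k ∈ range K,
        (ip f (ee (2 * cA k)) * μ (ee (2 * cA k)) +
          ip f (ee (2 * cA k + 1)) * μ (ee (2 * cA k + 1))) := by
      intro K
      induction K with
      | zero =>
        rw [sum_range_zero]
        refine sum_eq_zero fun m hm => h m (fun k => ?_) (fun k => ?_)
        · have h1 : m < 1 + 1 := mem_range.1 hm
          have := cA_pos k; omega
        · have h1 : m < 1 + 1 := mem_range.1 hm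
          have := cA_pos k; omega
      | succ K ih =>
        have h3 := cA_lt K
        have h4 := cA_pos K
        have hle : cA K + 1 ≤ cA (K + 1) + 1 := by omega
        rw [← sum_range_add_sum_Ico _ hle, ih, sum_range_succ]
        congr 1
        rw [sum_eq_add_of_mem (2 * cA K) (2 * cA K + 1) (mem_Ico.2 (by omega))
          (mem_Ico.2 (by omega)) (by omega)]
        intro m hm hne
        have := mem_Ico.1 hm
        refine h m (fun k => ?_) (fun k => ?_)
        · by_cases hk : k = K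
          · subst hk; exact hne.1
          · exact (two_cA_ne (K := K) (by omega) (by omega) hk).1
        · by_cases hk : k = K
          · subst hk; exact hne.2
          · exact (two_cA_ne (K := K) (by omega) (by omega) hk).2
    have h2 : ∀ K, μ (VP (cA K) f) = ∑ k ∈ range K,
        (ip f (ee (2 * cA k)) * μ (ee (2 * cA k)) +
          ip f (ee (2 * cA k + 1)) * μ (ee (2 * cA k + 1))) := by
      intro K
      rw [← h1]
      unfold VP
      rw [map_add, ← sum_ee, map_sum, map_sum, sum_eq_zero (s := Ico _ _), add_zero]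
      · exact sum_congr rfl fun m _ => by rw [map_smul, smul_eq_mul]
      · intro m hm
        have := mem_Ico.1 hm
        have h3 := cA_lt K
        rw [map_smul, smul_eq_mul, mul_assoc, ← ee_mid (k := K) (by omega) (by omega),
          h m (fun k => ?_) (fun k => ?_), mul_zero]
        · by_cases hk : k = K
          · subst hk; omega
          · exact (two_cA_ne (K := K) (by omega) (by omega) hk).1
        · by_cases hk : k = K
          · subst hk; omega
          · exact (two_cA_ne (K := K) (by omega) (by omega) hk).2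
    simp only [← h2]
    exact (μ.continuous.tendsto f).comp ((tendsto_VP f).comp cA_strictMono.tendsto_atTop)
  lim := by
    intro f
    have h1 : Tendsto (fun k => ‖f - VP (cA k) f‖ * 3) atTop (𝓝 (‖f - f‖ * 3)) :=
      ((tendsto_const_nhds.sub
        ((tendsto_VP f).comp cA_strictMono.tendsto_atTop)).norm).mul_const 3
    rw [sub_self, norm_zero, zero_mul] at h1
    refine squeeze_zero_norm (fun k => ?_) h1
    have h2 : ip (VP (cA k) f) (ee (2 * cA k) - ee (2 * cA k + 1)) = 0 := by
      rw [ee_G, ee_M]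
      refine ip_of_Sp (VP_mem (cA_pos k) f) (T' := {m | 2 * cA k ≤ m})
        (Submodule.sub_mem _ (u_mem_Sp (le_refl (2 * cA k))) (Sp_mono ?_ (hspec k).2.1)) ?_
      · intro m hm
        simp only [coe_Icc, Set.mem_Icc] at hm
        show 2 * cA k ≤ m
        omega
      · intro m hm hm'
        have h3 : 2 * cA k ≤ m := hm
        have h4 : m < 2 * cA k := hm'
        omega
    have h3 : ip f (ee (2 * cA k) - ee (2 * cA k + 1)) =
        ip (f - VP (cA k) f) (ee (2 * cA k) - ee (2 * cA k + 1)) := by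
      rw [ip_sub_left, h2, sub_zero]
    rw [Real.norm_eq_abs, h3]
    refine (abs_ip_le _ _).trans (mul_le_mul_of_nonneg_left ?_ (norm_nonneg _))
    rw [ee_G, ee_M]
    have h4 := L1_sub_le (u (2 * cA k)) (hh k)
    have h5 := (L1_le_norm _).trans (norm_u_le (2 * cA k))
    have h6 := (hspec k).2.2.2
    have h7 : (1 / 4 : ℝ) ^ k / cB k ≤ 1 := by
      rw [div_le_one (by linarith [one_le_cB k])]
      exact (pow_le_one₀ (by norm_num) (by norm_num)).trans (one_le_cB k)
    linarith
  l1 := by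
    intro K j hKj
    simp only [ee_G, ee_M]
    have h1 := (hspec j).2.2.2
    have h2 : ‖u (2 * cA K) - hh K‖ ≤ cB j := by
      have h3 := cB_mono (show K + 1 ≤ j by omega)
      rw [cB_succ] at h3
      linarith [one_le_cB K]
    have h4 : 0 < cB j := by linarith [one_le_cB j]
    calc L1 (hh j) * ‖u (2 * cA K) - hh K‖ ≤ (1 / 4) ^ j / cB j * cB j :=
          mul_le_mul h1 h2 (norm_nonneg _) (by positivity)
      _ = (1 / 4) ^ j := by field_simp
      _ ≤ (1 / 2) ^ j := pow_le_pow_left₀ (by norm_num) (by norm_num) j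
  l1' := by
    intro j
    simp only [ee_M]
    exact (hspec j).2.2.2.trans (div_le_self (by positivity) (one_le_cB j))
  nG := fun k => by simp only [ee_G]; exact norm_u_le _
  sp := fun m => Sp_le_span _ (ee_mem m)

end Pool.Agent.Lib.MP_ae49d3_an.H16
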