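import Pool.Agent.Lib.MP_ae49d3_an.H16.Defs

/-! Basic facts on the inner product. -/

namespace Pool.Agent.Lib.MP_ae49d3_an.H16

open Filter Topology MeasureTheory

theorem integ (f : CI) : Integrable (fun t => f t) (volume : Measure unitInterval) :=
  f.continuous.integrable_of_hasCompactSupport (HasCompactSupport.of_compactSpace _)

theorem integ_mul (f g : CI) : Integrable (fun t => f t * g t) (volume : Measure unitInterval) :=
  integ (f * g)

theorem integ_abs (f : CI) : Integrable (fun t => |f t|) (volume : Measure unitInterval) :=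
  (integ f).abs

theorem ip_comm (f g : CI) : ip f g = ip g f := by
  unfold ip; simp only [mul_comm]

theorem ip_add_left (f g h : CI) : ip (f + g) h = ip f h + ip g h := by
  unfold ip
  rw [← integral_add (integ_mul f h) (integ_mul g h)]
  simp only [ContinuousMap.add_apply, add_mul]

theorem ip_smul_left (r : ℝ) (f h : CI) : ip (r • f) h = r * ip f h := by
  unfold ip
  rw [← integral_const_mul]
  simp only [ContinuousMap.smul_apply, smul_eq_mul, mul_assoc]

/-- The `L¹` norm. -/
noncomputable def L1 (f : CI) : ℝ := ∫ t, |f t|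

theorem L1_nonneg (f : CI) : 0 ≤ L1 f := integral_nonneg fun _ => abs_nonneg _

theorem abs_ip_le (f g : CI) : |ip f g| ≤ ‖f‖ * L1 g := by
  unfold ip L1
  rw [← integral_const_mul]
  refine (abs_integral_le_integral_abs).trans ?_
  refine integral_mono (integ_mul f g).abs ((integ_abs g).const_mul _) fun t => ?_
  simp only [abs_mul]
  exact mul_le_mul_of_nonneg_right (f.norm_coe_le_norm t) (abs_nonneg _)

theorem L1_le_norm (f : CI) : L1 f ≤ ‖f‖ := by
  unfold L1
  have : ∫ _t : unitInterval, ‖f‖ = ‖f‖ := by simp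
  rw [← this]
  exact integral_mono (integ_abs f) (integrable_const _) fun t => f.norm_coe_le_norm t

theorem L1_smul (r : ℝ) (f : CI) : L1 (r • f) = |r| * L1 f := by
  unfold L1
  rw [← integral_const_mul]
  simp only [ContinuousMap.smul_apply, smul_eq_mul, abs_mul]

theorem L1_sub_le (f g : CI) : L1 (f - g) ≤ L1 f + L1 g := by
  unfold L1
  rw [← integral_add (integ_abs f) (integ_abs g)]
  exact integral_mono (integ_abs (f - g)) ((integ_abs f).add (integ_abs g)) fun t => by
    simpa using abs_sub (f t) (g t)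

/-- Pairing with `g` as a continuous linear functional. -/
noncomputable def ipL (g : CI) : CI →L[ℝ] ℝ :=
  LinearMap.mkContinuous
    { toFun := fun f => ip f g
      map_add' := fun f f' => ip_add_left f f' g
      map_smul' := fun r f => ip_smul_left r f g } (L1 g) fun f => by
    simpa [mul_comm] using abs_ip_le f g

@[simp] theorem ipL_apply (g f : CI) : ipL g f = ip f g := rfl

theorem norm_ipL_le (g : CI) : ‖ipL g‖ ≤ L1 g :=
  LinearMap.mkContinuous_norm_le _ (L1_nonneg g) _

theorem ip_sub_left (f g h : CI) : ip (f - g) h = ip f h - ip g h := (ipL h).map_sub f g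

theorem ip_zero_left (h : CI) : ip 0 h = 0 := (ipL h).map_zero

theorem ip_sum_left {ι : Type*} (s : Finset ι) (f : ι → CI) (h : CI) :
    ip (∑ i ∈ s, f i) h = ∑ i ∈ s, ip (f i) h := map_sum (ipL h) f s

theorem ip_add_right (f g h : CI) : ip h (f + g) = ip h f + ip h g := by
  rw [ip_comm, ip_add_left, ip_comm f, ip_comm g]

theorem ip_sub_right (f g h : CI) : ip h (f - g) = ip h f - ip h g := by
  rw [ip_comm, ip_sub_left, ip_comm f, ip_comm g]

theorem ip_smul_right (r : ℝ) (f h : CI) : ip h (r • f) = r * ip h f := by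
  rw [ip_comm, ip_smul_left, ip_comm f]

theorem ip_zero_right (h : CI) : ip h 0 = 0 := by rw [ip_comm, ip_zero_left]

theorem ip_sum_right {ι : Type*} (s : Finset ι) (f : ι → CI) (h : CI) :
    ip h (∑ i ∈ s, f i) = ∑ i ∈ s, ip h (f i) := by
  rw [ip_comm, ip_sum_left]; exact Finset.sum_congr rfl fun i _ => ip_comm _ _

theorem integral_unit (F : ℝ → ℝ) : ∫ t : unitInterval, F t = ∫ x in (0 : ℝ)..1, F x := by
  rw [intervalIntegral.integral_of_le zero_le_one, ← integral_Icc_eq_integral_Ioc]
  exact integral_subtype measurableSet_Icc F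

/-- Integral of `cos (π k t)` for an integer `k`. -/
theorem integral_cos_int (k : ℤ) :
    ∫ t : unitInterval, Real.cos (Real.pi * k * (t : ℝ)) = if k = 0 then 1 else 0 := by
  rw [integral_unit (fun x => Real.cos (Real.pi * k * x))]
  split_ifs with hk
  · simp [hk]
  · have hne : Real.pi * k ≠ 0 := mul_ne_zero Real.pi_ne_zero (by exact_mod_cast hk)
    rw [intervalIntegral.integral_comp_mul_left (fun x => Real.cos x) hne]
    simp [integral_cos, mul_comm Real.pi, Real.sin_int_mul_pi]

theorem ip_cs (m n : ℕ) :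
    ip (cs m) (cs n) = if m = n then (if m = 0 then 1 else 1 / 2) else 0 := by
  have h : ∀ t : unitInterval, cs m t * cs n t =
      (1 / 2) * (Real.cos (Real.pi * ((m + n : ℤ) : ℝ) * (t : ℝ)) +
        Real.cos (Real.pi * ((m - n : ℤ) : ℝ) * (t : ℝ))) := by
    intro t
    simp only [cs, ContinuousMap.coe_mk]
    push_cast
    rw [show Real.pi * (m + n) * (t : ℝ) = Real.pi * m * t + Real.pi * n * t by ring,
      show Real.pi * (m - n) * (t : ℝ) = Real.pi * m * t - Real.pi * n * t by ring,
      Real.cos_add, Real.cos_sub]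
    ring
  have hi : ∀ k : ℤ, Integrable (fun t : unitInterval => Real.cos (Real.pi * k * (t : ℝ))) := by
    intro k
    exact integ ⟨fun t => Real.cos (Real.pi * k * (t : ℝ)), by fun_prop⟩
  unfold ip
  simp only [h]
  rw [integral_const_mul, integral_add (hi _) (hi _), integral_cos_int, integral_cos_int]
  by_cases hmn : m = n
  · subst hmn
    by_cases h0 : m = 0
    · subst h0; norm_num
    · have : ((m : ℤ) + m) ≠ 0 := by omega
      simp [this, h0]
  · have h1 : ((m : ℤ) + n) ≠ 0 := by omega
    have h2 : ((m : ℤ) - n) ≠ 0 := by omega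
    simp [h1, h2, hmn]

/-- The normalising factor. -/
noncomputable def nf (m : ℕ) : ℝ := if m = 0 then 1 else Real.sqrt 2

theorem nf_sq (m : ℕ) : nf m * nf m = if m = 0 then 1 else 2 := by
  unfold nf; split_ifs <;> simp

theorem nf_pos (m : ℕ) : 0 < nf m := by
  unfold nf; split_ifs <;> positivity

theorem nf_le (m : ℕ) : nf m ≤ 2 := by
  unfold nf; split_ifs
  · norm_num
  · rw [Real.sqrt_le_iff]; norm_num

/-- The normalised cosine system. -/
noncomputable def u (m : ℕ) : CI := nf m • cs m

theorem ip_u (m n : ℕ) : ip (u m) (u n) = if m = n then 1 else 0 := by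
  unfold u
  rw [ip_smul_left, ip_smul_right, ip_cs]
  split_ifs with h h0
  · subst h; simp [nf, h0]
  · subst h; rw [← mul_assoc, nf_sq]; simp [h0]
  · simp

theorem norm_cs_le (m : ℕ) : ‖cs m‖ ≤ 1 :=
  (ContinuousMap.norm_le _ zero_le_one).2 fun t => by
    simpa [cs] using Real.abs_cos_le_one _

theorem norm_u_le (m : ℕ) : ‖u m‖ ≤ 2 := by
  unfold u
  rw [norm_smul, Real.norm_eq_abs, abs_of_pos (nf_pos m)]
  nlinarith [nf_le m, norm_cs_le m, nf_pos m, norm_nonneg (cs m)]

/-- Functions with spectrum in `T`. -/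
noncomputable def Sp (T : Set ℕ) : Submodule ℝ CI := Submodule.span ℝ (u '' T)

theorem u_mem_Sp {T : Set ℕ} {m : ℕ} (h : m ∈ T) : u m ∈ Sp T :=
  Submodule.subset_span ⟨m, h, rfl⟩

theorem cs_mem_Sp {T : Set ℕ} {m : ℕ} (h : m ∈ T) : cs m ∈ Sp T := by
  have : cs m = (nf m)⁻¹ • u m := by
    unfold u; rw [smul_smul, inv_mul_cancel₀ (nf_pos m).ne', one_smul]
  rw [this]; exact Submodule.smul_mem _ _ (u_mem_Sp h)

theorem Sp_mono {T T' : Set ℕ} (h : T ⊆ T') : Sp T ≤ Sp T' :=
  Submodule.span_mono (Set.image_mono h)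

theorem ip_u_of_Sp {T : Set ℕ} {f : CI} (hf : f ∈ Sp T) {m : ℕ} (hm : m ∉ T) :
    ip f (u m) = 0 := by
  induction hf using Submodule.span_induction with
  | mem x hx =>
    obtain ⟨n, hn, rfl⟩ := hx
    rw [ip_u, if_neg]; rintro rfl; exact hm hn
  | zero => exact ip_zero_left _
  | add x y _ _ hx hy => rw [ip_add_left, hx, hy, add_zero]
  | smul r x _ hx => rw [ip_smul_left, hx, mul_zero]

theorem ip_of_Sp {T T' : Set ℕ} {f g : CI} (hf : f ∈ Sp T) (hg : g ∈ Sp T')
    (hd : ∀ m, m ∈ T' → m ∉ T) : ip f g = 0 := by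
  induction hg using Submodule.span_induction with
  | mem x hx =>
    obtain ⟨n, hn, rfl⟩ := hx
    exact ip_u_of_Sp hf (hd n hn)
  | zero => exact ip_zero_right _
  | add x y _ _ hx hy => rw [ip_add_right, hx, hy, add_zero]
  | smul r x _ hx => rw [ip_smul_right, hx, mul_zero]

/-- Expansion of a function with finite spectrum. -/
theorem expand {T : Finset ℕ} {f : CI} (hf : f ∈ Sp (T : Set ℕ)) :
    ∑ m ∈ T, ip f (u m) • u m = f := by
  induction hf using Submodule.span_induction with
  | mem x hx =>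
    obtain ⟨n, hn, rfl⟩ := hx
    rw [Finset.sum_eq_single n]
    · rw [ip_u]; simp
    · intro m _ hm; rw [ip_u, if_neg (Ne.symm hm), zero_smul]
    · intro h; exact absurd hn h
  | zero => simp [ip_zero_left]
  | add x y _ _ hx hy =>
    simp only [ip_add_left, add_smul, Finset.sum_add_distrib, hx, hy]
  | smul r x _ hx =>
    simp only [ip_smul_left, mul_smul, ← Finset.smul_sum, hx]

theorem Sp_le_span (T : Set ℕ) : Sp T ≤ Submodule.span ℝ (Set.range cs) := by
  refine Submodule.span_le.2 ?_
  rintro _ ⟨m, _, rfl⟩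
  exact Submodule.smul_mem _ _ (Submodule.subset_span ⟨m, rfl⟩)

end Pool.Agent.Lib.MP_ae49d3_an.H16
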