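import Pool.Agent.Lib.MP_ae49d3_an.H16.House

/-! The mixed system: orthogonality, strongness, and the rank two obstruction. -/

namespace Pool.Agent.Lib.MP_ae49d3_an.H16

open Filter Topology MeasureTheory Finset

variable {e : ℕ → CI} {G M : ℕ → ℕ}

/-- Sum of the pair. -/
noncomputable def pa (e : ℕ → CI) (G M : ℕ → ℕ) (k : ℕ) : CI := e (G k) + e (M k)

/-- Difference of the pair. -/
noncomputable def pb (e : ℕ → CI) (G M : ℕ → ℕ) (k : ℕ) : CI := e (G k) - e (M k)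

open Classical in
/-- The mixed system. -/
noncomputable def mix (e : ℕ → CI) (G M : ℕ → ℕ) (m : ℕ) : CI :=
  if h : ∃ k, m = M k then pb e G M h.choose + pa e G M (h.choose + 1)
  else if h : ∃ k, m = G (k + 1) then pb e G M h.choose - pa e G M (h.choose + 1)
  else if m = G 0 then pa e G M 0 else e m

theorem mix_M (hb : Base e G M) (k : ℕ) : mix e G M (M k) = pb e G M k + pa e G M (k + 1) := by
  have h : ∃ l, M k = M l := ⟨k, rfl⟩
  unfold mix
  rw [dif_pos h, ← hb.Minj h.choose_spec]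

theorem mix_G (hb : Base e G M) (k : ℕ) :
    mix e G M (G (k + 1)) = pb e G M k - pa e G M (k + 1) := by
  have h : ∃ l, G (k + 1) = G (l + 1) := ⟨k, rfl⟩
  have h' : ¬ ∃ l, G (k + 1) = M l := fun ⟨l, hl⟩ => hb.GM _ _ hl
  unfold mix
  rw [dif_neg h', dif_pos h, ← Nat.succ_injective (hb.Ginj h.choose_spec)]

theorem mix_G0 (hb : Base e G M) : mix e G M (G 0) = pa e G M 0 := by
  have h : ¬ ∃ l, G 0 = G (l + 1) := fun ⟨l, hl⟩ => by have := hb.Ginj hl; omega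
  have h' : ¬ ∃ l, G 0 = M l := fun ⟨l, hl⟩ => hb.GM _ _ hl
  unfold mix
  rw [dif_neg h', dif_neg h, if_pos rfl]

theorem mix_out {m : ℕ} (h1 : ∀ k, m ≠ G k) (h2 : ∀ k, m ≠ M k) : mix e G M m = e m := by
  unfold mix
  rw [dif_neg (fun ⟨l, hl⟩ => h2 l hl), dif_neg (fun ⟨l, hl⟩ => h1 _ hl), if_neg (h1 0)]

theorem idx_cases (G M : ℕ → ℕ) (m : ℕ) : (∃ k, m = M k) ∨ (∃ k, m = G (k + 1)) ∨ m = G 0 ∨
    ((∀ k, m ≠ G k) ∧ (∀ k, m ≠ M k)) := by
  by_cases h1 : ∃ k, m = M k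
  · exact Or.inl h1
  by_cases h2 : ∃ k, m = G k
  · obtain ⟨k, hk⟩ := h2
    rcases k with _ | k
    · exact Or.inr (Or.inr (Or.inl hk))
    · exact Or.inr (Or.inl ⟨k, hk⟩)
  · exact Or.inr (Or.inr (Or.inr ⟨fun k hk => h2 ⟨k, hk⟩, fun k hk => h1 ⟨k, hk⟩⟩))

theorem ip_GG (hb : Base e G M) (k l : ℕ) : ip (e (G k)) (e (G l)) = if k = l then 1 else 0 := by
  rw [hb.on]; simp only [hb.Ginj.eq_iff]

theorem ip_MM (hb : Base e G M) (k l : ℕ) : ip (e (M k)) (e (M l)) = if k = l then 1 else 0 := by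
  rw [hb.on]; simp only [hb.Minj.eq_iff]

theorem ip_GM (hb : Base e G M) (k l : ℕ) : ip (e (G k)) (e (M l)) = 0 := by
  rw [hb.on, if_neg (hb.GM k l)]

theorem ip_MG (hb : Base e G M) (k l : ℕ) : ip (e (M k)) (e (G l)) = 0 := by
  rw [ip_comm, ip_GM hb]

theorem ip_aa (hb : Base e G M) (k l : ℕ) :
    ip (pa e G M k) (pa e G M l) = if k = l then 2 else 0 := by
  simp only [pa, ip_add_left, ip_add_right, ip_GG hb, ip_MM hb, ip_GM hb, ip_MG hb]
  split_ifs <;> norm_num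

theorem ip_bb (hb : Base e G M) (k l : ℕ) :
    ip (pb e G M k) (pb e G M l) = if k = l then 2 else 0 := by
  simp only [pb, ip_sub_left, ip_sub_right, ip_GG hb, ip_MM hb, ip_GM hb, ip_MG hb]
  split_ifs <;> norm_num

theorem ip_ab (hb : Base e G M) (k l : ℕ) : ip (pa e G M k) (pb e G M l) = 0 := by
  simp only [pa, pb, ip_add_left, ip_sub_right, ip_GG hb, ip_MM hb, ip_GM hb, ip_MG hb]
  split_ifs <;> norm_num

theorem ip_ba (hb : Base e G M) (k l : ℕ) : ip (pb e G M k) (pa e G M l) = 0 := by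
  rw [ip_comm, ip_ab hb]

theorem ip_oa (hb : Base e G M) {m : ℕ} (h1 : ∀ k, m ≠ G k) (h2 : ∀ k, m ≠ M k) (l : ℕ) :
    ip (e m) (pa e G M l) = 0 := by
  simp only [pa, ip_add_right, hb.on, if_neg (h1 l), if_neg (h2 l), add_zero]

theorem ip_ob (hb : Base e G M) {m : ℕ} (h1 : ∀ k, m ≠ G k) (h2 : ∀ k, m ≠ M k) (l : ℕ) :
    ip (e m) (pb e G M l) = 0 := by
  simp only [pb, ip_sub_right, hb.on, if_neg (h1 l), if_neg (h2 l), sub_zero]

theorem ip_mix_ne (hb : Base e G M) {m n : ℕ} (h : m ≠ n) :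
    ip (mix e G M m) (mix e G M n) = 0 := by
  rcases idx_cases G M m with ⟨k, rfl⟩ | ⟨k, rfl⟩ | rfl | ⟨h1, h2⟩ <;>
  rcases idx_cases G M n with ⟨l, rfl⟩ | ⟨l, rfl⟩ | rfl | ⟨h3, h4⟩
  · have : k ≠ l := fun hkl => h (by rw [hkl])
    simp [mix_M hb, ip_add_left, ip_add_right, ip_aa hb, ip_bb hb, ip_ab hb, ip_ba hb, this]
  · simp [mix_M hb, mix_G hb, ip_add_left, ip_sub_right, ip_aa hb, ip_bb hb, ip_ab hb, ip_ba hb]
  · simp [mix_M hb, mix_G0 hb, ip_add_left, ip_aa hb, ip_ba hb]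
  · rw [ip_comm]; simp [mix_M hb, mix_out h3 h4, ip_add_right, ip_oa hb h3 h4, ip_ob hb h3 h4]
  · simp [mix_M hb, mix_G hb, ip_sub_left, ip_add_right, ip_aa hb, ip_bb hb, ip_ab hb, ip_ba hb]
  · have : k ≠ l := fun hkl => h (by rw [hkl])
    simp [mix_G hb, ip_sub_left, ip_sub_right, ip_aa hb, ip_bb hb, ip_ab hb, ip_ba hb, this]
  · simp [mix_G hb, mix_G0 hb, ip_sub_left, ip_aa hb, ip_ba hb]
  · rw [ip_comm]; simp [mix_G hb, mix_out h3 h4, ip_sub_right, ip_oa hb h3 h4, ip_ob hb h3 h4]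
  · simp [mix_M hb, mix_G0 hb, ip_add_right, ip_aa hb, ip_ab hb]
  · simp [mix_G hb, mix_G0 hb, ip_sub_right, ip_aa hb, ip_ab hb]
  · exact absurd rfl h
  · rw [ip_comm]; simp [mix_G0 hb, mix_out h3 h4, ip_oa hb h3 h4]
  · simp [mix_M hb, mix_out h1 h2, ip_add_right, ip_oa hb h1 h2, ip_ob hb h1 h2]
  · simp [mix_G hb, mix_out h1 h2, ip_sub_right, ip_oa hb h1 h2, ip_ob hb h1 h2]
  · simp [mix_G0 hb, mix_out h1 h2, ip_oa hb h1 h2]
  · rw [mix_out h1 h2, mix_out h3 h4, hb.on, if_neg h]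

theorem ip_mix_self (hb : Base e G M) (m : ℕ) : ip (mix e G M m) (mix e G M m) ≠ 0 := by
  rcases idx_cases G M m with ⟨k, rfl⟩ | ⟨k, rfl⟩ | rfl | ⟨h1, h2⟩
  · simp [mix_M hb, ip_add_left, ip_add_right, ip_aa hb, ip_bb hb, ip_ab hb, ip_ba hb]
  · simp [mix_G hb, ip_sub_left, ip_sub_right, ip_aa hb, ip_bb hb, ip_ab hb, ip_ba hb]
  · simp [mix_G0 hb, ip_aa hb]
  · rw [mix_out h1 h2, hb.on]; simp

theorem mix_mem (hb : Base e G M) (m : ℕ) :
    mix e G M m ∈ Submodule.span ℝ (Set.range cs) := by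
  have ha : ∀ k, pa e G M k ∈ Submodule.span ℝ (Set.range cs) := fun k =>
    Submodule.add_mem _ (hb.sp _) (hb.sp _)
  have hb' : ∀ k, pb e G M k ∈ Submodule.span ℝ (Set.range cs) := fun k =>
    Submodule.sub_mem _ (hb.sp _) (hb.sp _)
  rcases idx_cases G M m with ⟨k, rfl⟩ | ⟨k, rfl⟩ | rfl | ⟨h1, h2⟩
  · rw [mix_M hb]; exact Submodule.add_mem _ (hb' _) (ha _)
  · rw [mix_G hb]; exact Submodule.sub_mem _ (hb' _) (ha _)
  · rw [mix_G0 hb]; exact ha _
  · rw [mix_out h1 h2]; exact hb.sp _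

/-- Strongness in dual form. -/
theorem mix_strong (hb : Base e G M) (f : CI) (μ : CI →L[ℝ] ℝ)
    (h : ∀ m, ip f (mix e G M m) * μ (mix e G M m) = 0) : μ f = 0 := by
  set α : ℕ → ℝ := fun k => ip f (pa e G M k) with hα
  set β : ℕ → ℝ := fun k => ip f (pb e G M k) with hβ
  set α' : ℕ → ℝ := fun k => μ (pa e G M k) with hα'
  set β' : ℕ → ℝ := fun k => μ (pb e G M k) with hβ'
  have h0 : α 0 * α' 0 = 0 := by have := h (G 0); rwa [mix_G0 hb] at this
  have h1 : ∀ k, (β k + α (k + 1)) * (β' k + α' (k + 1)) = 0 := fun k => by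
    have := h (M k); rwa [mix_M hb, ip_add_right, map_add] at this
  have h2 : ∀ k, (β k - α (k + 1)) * (β' k - α' (k + 1)) = 0 := fun k => by
    have := h (G (k + 1)); rwa [mix_G hb, ip_sub_right, map_sub] at this
  have h3 : ∀ k, ip f (e (G k)) * μ (e (G k)) + ip f (e (M k)) * μ (e (M k)) =
      (α k * α' k + β k * β' k) / 2 := fun k => by
    simp only [hα, hβ, hα', hβ', pa, pb, ip_add_right, ip_sub_right, map_add, map_sub]; ring
  have h4 : ∀ K, ∑ k ∈ range (K + 1),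
      (ip f (e (G k)) * μ (e (G k)) + ip f (e (M k)) * μ (e (M k))) = β K * β' K / 2 := by
    intro K
    induction K with
    | zero => rw [sum_range_one, h3, h0, zero_add]
    | succ K ih => rw [sum_range_succ, ih, h3]; nlinarith [h1 K, h2 K]
  have h5 := (hb.app f μ fun m hm1 hm2 => by
    have := h m; rwa [mix_out hm1 hm2] at this).comp (tendsto_add_atTop_nat 1)
  have h6 : Tendsto (fun K => β K * β' K / 2) atTop (𝓝 (μ f)) :=
    h5.congr fun K => h4 K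
  by_contra hne
  obtain ⟨K0, hK0⟩ := eventually_atTop.1 (h6.eventually_ne hne)
  have h7 : ∀ k, K0 ≤ k → |β k| ≤ |β (k + 1)| + 2 * (‖f‖ * L1 (e (M (k + 1)))) := by
    intro k hk
    have hk' : β' k ≠ 0 := fun h0 => hK0 k hk (by rw [h0]; simp)
    have ha : |β k| = |α (k + 1)| := by
      rcases mul_eq_zero.1 (h1 k) with ha | ha
      · rw [show β k = -α (k + 1) by linarith, abs_neg]
      · rcases mul_eq_zero.1 (h2 k) with hc | hc
        · rw [show β k = α (k + 1) by linarith]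
        · exact absurd (by linarith) hk'
    have hd : α (k + 1) = β (k + 1) + 2 * ip f (e (M (k + 1))) := by
      simp only [hα, hβ, pa, pb, ip_add_right, ip_sub_right]; ring
    rw [ha, hd]
    refine (abs_add_le _ _).trans ?_
    rw [abs_mul, abs_two]
    linarith [abs_ip_le f (e (M (k + 1)))]
  have h8 : ∀ K, K0 ≤ K → |β K| * ‖pb e G M K‖ ≤ 2 * ‖f‖ * (1 / 2) ^ K := by
    intro K hK
    have h9 : ∀ n, |β K| * ‖pb e G M K‖ ≤ |β (K + n)| * ‖pb e G M K‖ +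
        2 * ‖f‖ * ((1 / 2) ^ K - (1 / 2) ^ (K + n)) := by
      intro n
      induction n with
      | zero => simp
      | succ n ih =>
        have h10 := mul_le_mul_of_nonneg_right (h7 (K + n) (by omega))
          (norm_nonneg (pb e G M K))
        have h11 := mul_le_mul_of_nonneg_left (hb.l1 K (K + n + 1) (by omega)) (norm_nonneg f)
        rw [← add_assoc, pow_succ]
        rw [pow_succ] at h11
        unfold pb at *
        nlinarith
    have h12 : Tendsto (fun n => |β (K + n)| * ‖pb e G M K‖ + 2 * ‖f‖ * (1 / 2) ^ K) atTop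
        (𝓝 (|0| * ‖pb e G M K‖ + 2 * ‖f‖ * (1 / 2) ^ K)) := by
      refine Tendsto.add (Tendsto.mul_const _ (Tendsto.abs ?_)) tendsto_const_nhds
      have := (hb.lim f).comp (tendsto_add_atTop_nat K)
      refine this.congr fun n => ?_
      simp only [Function.comp, hβ, pb, add_comm]
    rw [abs_zero, zero_mul, zero_add] at h12
    refine ge_of_tendsto' h12 fun n => (h9 n).trans ?_
    have : 0 ≤ 2 * ‖f‖ * (1 / 2 : ℝ) ^ (K + n) := by positivity
    nlinarith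
  have h13 : Tendsto (fun K => β K * β' K / 2) atTop (𝓝 0) := by
    have h14 : Tendsto (fun K : ℕ => ‖μ‖ * ‖f‖ * (1 / 2 : ℝ) ^ K) atTop (𝓝 (‖μ‖ * ‖f‖ * 0)) :=
      (tendsto_pow_atTop_nhds_zero_of_lt_one (by norm_num) (by norm_num)).const_mul _
    rw [mul_zero] at h14
    refine squeeze_zero_norm' (eventually_atTop.2 ⟨K0, fun K hK => ?_⟩) h14
    rw [Real.norm_eq_abs, abs_div, abs_mul, abs_two]
    have h15 : |β' K| ≤ ‖μ‖ * ‖pb e G M K‖ := μ.le_opNorm _
    have h16 := mul_le_mul_of_nonneg_left (h8 K hK) (norm_nonneg μ)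
    have h17 := mul_le_mul_of_nonneg_left h15 (abs_nonneg (β K))
    nlinarith
  exact hne (tendsto_nhds_unique h6 h13)

end Pool.Agent.Lib.MP_ae49d3_an.H16
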