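import Pool.Agent.Lib.MP_ae49d3_an.H16.Mix

/-! The rank two obstruction and the passage to matrices. -/

namespace Pool.Agent.Lib.MP_ae49d3_an.H16

open Filter Topology MeasureTheory Finset

variable {e : ℕ → CI} {G M : ℕ → ℕ}

theorem ex_fun (hb : Base e G M) (c : ℕ → ℝ) (hc : ∀ k, |c k| ≤ (1 / 2) ^ k) :
    ∃ F : CI, (∀ l, ip F (e (G l)) = c l) ∧ ∀ m, (∀ k, m ≠ G k) → ip F (e m) = 0 := by
  have hs : Summable fun k => c k • e (G k) := by
    refine Summable.of_norm_bounded (g := fun k => (1 / 2 : ℝ) ^ k * 2)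
      (summable_geometric_two.mul_right 2) fun k => ?_
    rw [norm_smul, Real.norm_eq_abs]
    exact mul_le_mul (hc k) (hb.nG k) (norm_nonneg _) (by positivity)
  have key : ∀ y, ip (∑' k, c k • e (G k)) y = ∑' k, c k * ip (e (G k)) y := by
    intro y
    have := (hs.hasSum.mapL (ipL y)).tsum_eq
    simp only [ipL_apply, ip_smul_left] at this
    exact this.symm
  refine ⟨∑' k, c k • e (G k), fun l => ?_, fun m hm => ?_⟩
  · rw [key, tsum_eq_single l]
    · rw [ip_GG hb]; simp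
    · intro k hk; rw [ip_GG hb, if_neg hk, mul_zero]
  · rw [key]
    have : ∀ k, c k * ip (e (G k)) (e m) = 0 := fun k => by
      rw [hb.on, if_neg (Ne.symm (hm k)), mul_zero]
    simp [this]

theorem ex_mu (hb : Base e G M) (q : ℕ → ℝ) (hq : ∀ k, |q k| ≤ 2 ^ k) :
    ∃ μ : CI →L[ℝ] ℝ, ∀ y, μ y = ∑' k, q k * ip y (e (M k)) := by
  have hbd : ∀ (y : CI) k, ‖q k * ip y (e (M k))‖ ≤ ‖y‖ * (1 / 2) ^ k := by
    intro y k
    rw [Real.norm_eq_abs, abs_mul]
    have h1 : |ip y (e (M k))| ≤ ‖y‖ * (1 / 4) ^ k :=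
      (abs_ip_le _ _).trans (mul_le_mul_of_nonneg_left (hb.l1' k) (norm_nonneg _))
    calc |q k| * |ip y (e (M k))| ≤ 2 ^ k * (‖y‖ * (1 / 4) ^ k) :=
          mul_le_mul (hq k) h1 (abs_nonneg _) (by positivity)
      _ = ‖y‖ * (2 ^ k * (1 / 4) ^ k) := by ring
      _ = ‖y‖ * (1 / 2) ^ k := by rw [← mul_pow]; norm_num
  have hs : ∀ y : CI, Summable fun k => q k * ip y (e (M k)) := fun y =>
    Summable.of_norm_bounded (summable_geometric_two.mul_left ‖y‖) (hbd y)
  refine ⟨LinearMap.mkContinuous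
    { toFun := fun y => ∑' k, q k * ip y (e (M k))
      map_add' := fun y y' => ?_
      map_smul' := fun r y => ?_ } 2 fun y => ?_, fun y => rfl⟩
  · rw [← (hs y).tsum_add (hs y')]
    exact tsum_congr fun k => by rw [ip_add_left, mul_add]
  · simp only [RingHom.id_apply, smul_eq_mul]
    rw [← tsum_mul_left]
    exact tsum_congr fun k => by rw [ip_smul_left]; ring
  · have := tsum_of_norm_bounded (hasSum_geometric_two.mul_left ‖y‖) (hbd y)
    simpa [mul_comm] using this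

theorem mix_pair (hb : Base e G M) : ∃ (f₁ f₂ : CI) (μ₁ μ₂ : CI →L[ℝ] ℝ),
    (∀ m, ip f₁ (mix e G M m) * μ₁ (mix e G M m) + ip f₂ (mix e G M m) * μ₂ (mix e G M m) = 0) ∧
      μ₁ f₁ + μ₂ f₂ ≠ 0 := by
  obtain ⟨F₁, hF₁, hF₁'⟩ := ex_fun hb (fun k => if k % 2 = 0 then (1 / 2) ^ k else 0)
    fun k => by split_ifs <;> simp
  obtain ⟨F₂, hF₂, hF₂'⟩ := ex_fun hb (fun k => if k % 2 = 0 then 0 else (1 / 2) ^ k)
    fun k => by split_ifs <;> simp
  obtain ⟨μ₁, hμ₁⟩ := ex_mu hb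
    (fun k => if k = 0 then -(1 / 2) else if k % 2 = 0 then -(2 ^ k) else 0)
    fun k => by
      split_ifs with h1 h2
      · subst h1; norm_num [abs_le]
      · simp
      · simp
  obtain ⟨μ₂, hμ₂⟩ := ex_mu hb (fun k => if k % 2 = 0 then 0 else -(2 ^ k))
    fun k => by split_ifs <;> simp
  have hMG : ∀ l k, M l ≠ G k := fun l k => (hb.GM k l).symm
  have a1 : ∀ l, ip (F₁ - e (M 0)) (e (G l)) = if l % 2 = 0 then (1 / 2) ^ l else 0 := fun l => by
    rw [ip_sub_left, hF₁, ip_MG hb, sub_zero]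
  have a2 : ∀ l, ip (F₁ - e (M 0)) (e (M l)) = if l = 0 then -1 else 0 := fun l => by
    rw [ip_sub_left, hF₁' _ (hMG l), ip_MM hb]
    by_cases h : l = 0
    · simp [h]
    · simp [h, Ne.symm h]
  have a3 : ∀ l, ip F₂ (e (M l)) = 0 := fun l => hF₂' _ (hMG l)
  have b1 : ∀ l, μ₁ (e (G l)) = 0 := fun l => by simp [hμ₁, ip_GM hb]
  have b2 : ∀ l, μ₂ (e (G l)) = 0 := fun l => by simp [hμ₂, ip_GM hb]
  have b3 : ∀ l, μ₁ (e (M l)) =
      if l = 0 then -(1 / 2) else if l % 2 = 0 then -(2 ^ l) else 0 := fun l => by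
    rw [hμ₁, tsum_eq_single l]
    · rw [ip_MM hb]; simp
    · intro k hk; rw [ip_MM hb, if_neg (Ne.symm hk), mul_zero]
  have b4 : ∀ l, μ₂ (e (M l)) = if l % 2 = 0 then 0 else -(2 ^ l) := fun l => by
    rw [hμ₂, tsum_eq_single l]
    · rw [ip_MM hb]; simp
    · intro k hk; rw [ip_MM hb, if_neg (Ne.symm hk), mul_zero]
  have hp : ∀ k : ℕ, (1 / 2 : ℝ) ^ k * 2 ^ k = 1 := fun k => by rw [← mul_pow]; norm_num
  refine ⟨F₁ - e (M 0), F₂, μ₁, μ₂, fun m => ?_, ?_⟩
  · rcases idx_cases G M m with ⟨k, rfl⟩ | ⟨k, rfl⟩ | rfl | ⟨h1, h2⟩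
    · simp only [mix_M hb, pa, pb, ip_add_right, ip_sub_right, map_add, map_sub, a1, a2, a3, hF₂,
        b1, b2, b3, b4]
      have h1 := hp k
      have h2 := hp (k + 1)
      rcases Nat.eq_zero_or_pos k with h0 | h0
      · subst h0; norm_num
      · have h3 : k ≠ 0 := h0.ne'
        rcases Nat.mod_two_eq_zero_or_one k with h | h
        · have h4 : (k + 1) % 2 ≠ 0 := by omega
          simp only [h, h3, h4, if_true, if_false, Nat.succ_ne_zero]
          nlinarith
        · have h4 : (k + 1) % 2 = 0 := by omega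
          have h5 : k % 2 ≠ 0 := by omega
          simp only [h3, h4, h5, if_true, if_false, Nat.succ_ne_zero]
          nlinarith
    · simp only [mix_G hb, pa, pb, ip_add_right, ip_sub_right, map_add, map_sub, a1, a2, a3, hF₂,
        b1, b2, b3, b4]
      have h1 := hp k
      have h2 := hp (k + 1)
      rcases Nat.eq_zero_or_pos k with h0 | h0
      · subst h0; norm_num
      · have h3 : k ≠ 0 := h0.ne'
        rcases Nat.mod_two_eq_zero_or_one k with h | h
        · have h4 : (k + 1) % 2 ≠ 0 := by omega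
          simp only [h, h3, h4, if_true, if_false, Nat.succ_ne_zero]
          nlinarith
        · have h4 : (k + 1) % 2 = 0 := by omega
          have h5 : k % 2 ≠ 0 := by omega
          simp only [h3, h4, h5, if_true, if_false, Nat.succ_ne_zero]
          nlinarith
    · simp only [mix_G0 hb, pa, ip_add_right, map_add, a1, a2, a3, hF₂, b1, b2, b3, b4]
      norm_num
    · rw [mix_out h1 h2, ip_sub_left, hF₁' m h1, hF₂' m h1, hb.on, if_neg (Ne.symm (h2 0))]
      simp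
  · rw [hμ₁, hμ₂, tsum_eq_single 0]
    · simp [a2, a3]
    · intro k hk; simp [a2, hk]

/-- A rank two obstruction excludes a common matrix. -/
theorem not_sums_pair {φ : ℕ → CI} {f₁ f₂ : CI} {μ₁ μ₂ : CI →L[ℝ] ℝ}
    (h : ∀ m, ip f₁ (φ m) * μ₁ (φ m) + ip f₂ (φ m) * μ₂ (φ m) = 0)
    (hne : μ₁ f₁ + μ₂ f₂ ≠ 0) (c : ℕ → ℕ → ℝ) : ¬ (Sums φ c f₁ ∧ Sums φ c f₂) := by
  rintro ⟨⟨σ₁, h1, h1'⟩, ⟨σ₂, h2, h2'⟩⟩
  have a : ∀ N, μ₁ (psum φ f₁ N) + μ₂ (psum φ f₂ N) = 0 := by
    intro N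
    unfold psum coef
    rw [map_sum, map_sum, ← sum_add_distrib]
    refine sum_eq_zero fun n _ => ?_
    rw [map_smul, map_smul, smul_eq_mul, smul_eq_mul, div_mul_eq_mul_div, div_mul_eq_mul_div,
      ← add_div, h n, zero_div]
  have b : ∀ m, μ₁ (σ₁ m) + μ₂ (σ₂ m) = 0 := by
    intro m
    have t := ((μ₁.continuous.tendsto _).comp (h1 m)).add ((μ₂.continuous.tendsto _).comp (h2 m))
    refine tendsto_nhds_unique t (tendsto_const_nhds.congr fun L => ?_)
    simp only [Function.comp, map_sum, map_smul, smul_eq_mul, ← sum_add_distrib, ← mul_add, a,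
      mul_zero, sum_const_zero]
  have t := ((μ₁.continuous.tendsto _).comp h1').add ((μ₂.continuous.tendsto _).comp h2')
  exact hne (tendsto_nhds_unique t (tendsto_const_nhds.congr fun m => (b m).symm))

theorem mem_closure_of_dual {U : Submodule ℝ CI} {f : CI}
    (h : ∀ μ : CI →L[ℝ] ℝ, (∀ x ∈ U, μ x = 0) → μ f = 0) : f ∈ closure (U : Set CI) := by
  by_contra hf
  obtain ⟨μ, r, h1, h2⟩ := geometric_hahn_banach_closed_point U.convex.closure isClosed_closure hf
  have h0 : 0 < r := by simpa using h1 0 (subset_closure U.zero_mem)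
  have h3 : ∀ x ∈ U, μ x = 0 := by
    intro x hx
    by_contra hne
    have := h1 ((r / μ x) • x) (subset_closure (U.smul_mem _ hx))
    rw [map_smul, smul_eq_mul, div_mul_cancel₀ _ hne] at this
    exact lt_irrefl _ this
  rw [h μ h3] at h2
  linarith

theorem abel_sum (v : ℕ → CI) (lam : ℕ → ℝ) (L : ℕ) :
    ∑ N ∈ range L, (lam N - lam (N + 1)) • ∑ n ∈ range (N + 1), v n =
      ∑ n ∈ range L, (lam n - lam L) • v n := by
  induction L with
  | zero => simp
  | succ L ih =>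
    rw [sum_range_succ, ih, sum_range_succ (fun n => (lam n - lam (L + 1)) • v n),
      sum_range_succ, smul_add, smul_sum, ← add_assoc, ← sum_add_distrib]
    congr 1
    refine sum_congr rfl fun n _ => ?_
    rw [← add_smul]; congr 1; ring

/-- A function in the closed span of its own terms has a matrix. -/
theorem sums_of_mem_closure {φ : ℕ → CI} {f : CI}
    (h : f ∈ closure ((Submodule.span ℝ (Set.range fun n => coef φ f n • φ n) : Submodule ℝ CI) :
      Set CI)) : ∃ c, Sums φ c f := by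
  obtain ⟨x, hx, hx'⟩ := mem_closure_iff_seq_limit.1 h
  have : ∀ m, ∃ lam : ℕ →₀ ℝ, (lam.sum fun n r => r • (coef φ f n • φ n)) = x m := fun m =>
    Finsupp.mem_span_range_iff_exists_finsupp.1 (hx m)
  choose lam hlam using this
  refine ⟨fun m N => lam m N - lam m (N + 1), x, fun m => ?_, hx'⟩
  obtain ⟨B, hB⟩ := (lam m).support.bddAbove
  refine tendsto_const_nhds.congr' (eventually_atTop.2 ⟨B + 1, fun L hL => ?_⟩)
  have h0 : lam m L = 0 := by
    by_contra hne
    have := hB (mem_coe.2 (Finsupp.mem_support_iff.2 hne))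
    omega
  unfold psum
  simp only
  rw [abel_sum, h0, ← hlam m, Finsupp.sum_of_support_subset (s := range L)]
  · simp
  · intro n hn
    have := hB (mem_coe.2 hn)
    exact mem_range.2 (by omega)
  · intro n _; simp

theorem main : ∃ φ : ℕ → CI,
    (∀ n, φ n ∈ Submodule.span ℝ (Set.range cs)) ∧ (∀ n, φ n ≠ 0) ∧
    (∀ m n, m ≠ n → ip (φ m) (φ n) = 0) ∧
    Dense ((Submodule.span ℝ (Set.range φ) : Submodule ℝ CI) : Set CI) ∧
    (∀ f, ∃ c, Sums φ c f) ∧
    ∃ f₁ f₂, ∀ c, ¬ (Sums φ c f₁ ∧ Sums φ c f₂) := by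
  have hb := base_ee
  set φ := mix ee (fun k => 2 * cA k) (fun k => 2 * cA k + 1) with hφ
  refine ⟨φ, mix_mem hb, fun n hn => ip_mix_self hb n ?_, fun m n h => ip_mix_ne hb h,
    fun f => ?_, fun f => ?_, ?_⟩
  · rw [← hφ, hn, ip_zero_left]
  · refine mem_closure_of_dual fun μ hμ => mix_strong hb f μ fun m => ?_
    rw [← hφ, hμ _ (Submodule.subset_span ⟨m, rfl⟩), mul_zero]
  · refine sums_of_mem_closure (mem_closure_of_dual fun μ hμ => mix_strong hb f μ fun m => ?_)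
    have h1 := hμ _ (Submodule.subset_span ⟨m, rfl⟩)
    rw [map_smul, smul_eq_mul] at h1
    unfold coef at h1
    rw [div_mul_eq_mul_div, div_eq_zero_iff] at h1
    exact h1.resolve_right (ip_mix_self hb m)
  · obtain ⟨f₁, f₂, μ₁, μ₂, h1, h2⟩ := mix_pair hb
    exact ⟨f₁, f₂, not_sums_pair h1 h2⟩

end Pool.Agent.Lib.MP_ae49d3_an.H16
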