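import Pool.Agent.Lib.MP_ae49d3_an.H16.Fej

/-! High frequency cosine polynomials of unit `L²` norm and small `L¹` norm. -/

namespace Pool.Agent.Lib.MP_ae49d3_an.H16

open Filter Topology MeasureTheory Finset

theorem ip_self_of_Sp {T : Finset ℕ} {f : CI} (hf : f ∈ Sp (T : Set ℕ)) :
    ip f f = ∑ m ∈ T, ip f (u m) ^ 2 := by
  conv_lhs => rw [← expand hf]
  rw [ip_sum_left]
  refine sum_congr rfl fun m _ => ?_
  rw [ip_smul_left, expand hf, ip_comm (u m), sq]

theorem eval_sq_le {T : Finset ℕ} {f : CI} (hf : f ∈ Sp (T : Set ℕ)) (t : unitInterval) :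
    f t ^ 2 ≤ 4 * T.card * ip f f := by
  have h1 : f t = ∑ m ∈ T, ip f (u m) * u m t := by
    conv_lhs => rw [← expand hf]
    rw [ContinuousMap.sum_apply]; simp
  have h2 := sum_mul_sq_le_sq_mul_sq T (fun m => ip f (u m)) (fun m => u m t)
  have h3 : ∑ m ∈ T, u m t ^ 2 ≤ ∑ _m ∈ T, (4 : ℝ) := by
    refine sum_le_sum fun m _ => ?_
    have h := ((u m).norm_coe_le_norm t).trans (norm_u_le m)
    rw [Real.norm_eq_abs] at h
    nlinarith [abs_nonneg (u m t), sq_abs (u m t)]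
  rw [sum_const, nsmul_eq_mul] at h3
  rw [h1, ip_self_of_Sp hf]
  have h4 : 0 ≤ ∑ m ∈ T, ip f (u m) ^ 2 := sum_nonneg fun m _ => sq_nonneg _
  nlinarith

theorem ip_one_cs (m : ℕ) : ip 1 (cs m) = if m = 0 then 1 else 0 := by
  have : (1 : CI) = cs 0 := by ext t; simp [cs]
  rw [this, ip_cs]; simp [eq_comm]

theorem small_L1 (B : ℕ) (ε : ℝ) :
    ∃ (B' : ℕ) (h : CI), 0 < ε → B ≤ B' ∧ h ∈ Sp ((Icc B B' : Finset ℕ) : Set ℕ) ∧
      ip h h = 1 ∧ L1 h ≤ ε := by
  by_cases hε : 0 < ε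
  swap
  · exact ⟨0, 0, fun h => absurd h hε⟩
  obtain ⟨N, hN⟩ := exists_nat_gt (12 / ε ^ 2)
  have hN0 : (0 : ℝ) < N := lt_trans (by positivity) hN
  have hN1 : (1 : ℝ) ≤ N := by
    have : 0 < N := by exact_mod_cast hN0
    exact_mod_cast this
  set K : CI := ∑ m ∈ range N, (wt m * ((N : ℝ) - m)) • cs m with hK
  have hKt : ∀ t : unitInterval, K t = GK N (Real.pi * t) := by
    intro t
    rw [hK, ContinuousMap.sum_apply]
    unfold GK
    refine sum_congr rfl fun m _ => ?_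
    simp only [cs, ContinuousMap.smul_apply, smul_eq_mul, ContinuousMap.coe_mk]
    rw [show (m : ℝ) * (Real.pi * t) = Real.pi * m * t by ring]
  have hK1 : L1 K = N := by
    have h3 : L1 K = ip 1 K := by
      unfold L1 ip
      refine integral_congr_ae (Eventually.of_forall fun t => ?_)
      simp [hKt, abs_of_nonneg (GK_nonneg N _)]
    rw [h3, hK, ip_sum_right, sum_eq_single 0]
    · rw [ip_smul_right, ip_one_cs]; simp [wt]
    · intro m _ hm; rw [ip_smul_right, ip_one_cs, if_neg hm, mul_zero]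
    · intro h; exact absurd (mem_range.2 (by exact_mod_cast hN0)) h
  set H : CI := cs (B + N) * K with hH
  have hHm : H ∈ Sp ((Icc B (B + 2 * N) : Finset ℕ) : Set ℕ) := by
    rw [hH, hK, mul_sum]
    refine Submodule.sum_mem _ fun m hm => ?_
    have hm' := mem_range.1 hm
    rw [mul_smul_comm, cs_mul _ _ (by omega)]
    refine Submodule.smul_mem _ _ (Submodule.smul_mem _ _ (Submodule.add_mem _
      (cs_mem_Sp ?_) (cs_mem_Sp ?_)))
    · simp only [coe_Icc, Set.mem_Icc]; omega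
    · simp only [coe_Icc, Set.mem_Icc]; omega
  have hH1 : L1 H ≤ N := by
    rw [← hK1]
    unfold L1
    refine integral_mono (integ_abs H) (integ_abs K) fun t => ?_
    simp only [hH, ContinuousMap.mul_apply, abs_mul]
    have : |cs (B + N) t| ≤ 1 := by simpa [cs] using Real.abs_cos_le_one _
    nlinarith [abs_nonneg (K t), abs_nonneg (cs (B + N) t)]
  have hH0 : H 0 = (N : ℝ) ^ 2 := by
    simp only [hH, ContinuousMap.mul_apply, hKt, GK_eq]
    simp [cs]
  have h2 := eval_sq_le hHm 0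
  rw [hH0, Nat.card_Icc, show B + 2 * N + 1 - B = 2 * N + 1 by omega] at h2
  push_cast at h2
  have hpos : 0 ≤ ip H H := by
    rw [ip_self_of_Sp hHm]; exact sum_nonneg fun m _ => sq_nonneg _
  have h3 : (N : ℝ) ^ 3 ≤ 12 * ip H H := by
    have : (N : ℝ) * N ^ 3 ≤ N * (12 * ip H H) := by nlinarith
    exact le_of_mul_le_mul_left this hN0
  have hp : 0 < ip H H := by
    have : (0 : ℝ) < N ^ 3 := by positivity
    linarith
  set s := Real.sqrt (ip H H) with hs
  have hs0 : 0 < s := Real.sqrt_pos.2 hp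
  have hss : s * s = ip H H := Real.mul_self_sqrt hpos
  refine ⟨B + 2 * N, s⁻¹ • H, fun _ => ⟨by omega, Submodule.smul_mem _ _ hHm, ?_, ?_⟩⟩
  · rw [ip_smul_left, ip_smul_right, ← hss]; field_simp
  · rw [L1_smul, abs_of_pos (inv_pos.2 hs0), inv_mul_le_iff₀ hs0]
    refine hH1.trans ?_
    rw [div_lt_iff₀ (by positivity)] at hN
    have h5 : (N : ℝ) ^ 2 ≤ (s * ε) ^ 2 := by
      have h6 : (s * ε) ^ 2 = ip H H * ε ^ 2 := by rw [← hss]; ring
      rw [h6]
      have h7 : (N : ℝ) ^ 3 * ε ^ 2 ≤ 12 * ip H H * ε ^ 2 :=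
        mul_le_mul_of_nonneg_right h3 (sq_nonneg ε)
      have h8 : 12 * (N : ℝ) ^ 2 ≤ N * ε ^ 2 * N ^ 2 :=
        mul_le_mul_of_nonneg_right hN.le (sq_nonneg _)
      nlinarith
    exact (pow_le_pow_iff_left₀ hN0.le (by positivity) two_ne_zero).1 h5

end Pool.Agent.Lib.MP_ae49d3_an.H16
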